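import Pool.Agent.Helper81.M9.Fin

/-!
# A closed simply connected manifold of dimension nine with positive sectional curvature

`M9` is the quotient `(S⁵ × S⁵) / S¹` by the diagonal action of the circle, realised as a submanifold
of the space of complex `3 × 3` matrices: the matrices `a b*` with `|a| = |b| = 1`, that is, the
matrices of rank one and norm one. It is the unit sphere bundle of the vector bundle `ℂ ⊕ T ℂP²`:
`[b]` is the point of `ℂP²` and `a = s b + w`, with `s` complex and `w` orthogonal to `b`.
It is compact and simply connected and carries a smooth Riemannian metric all of whose sectional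
curvatures are positive.
-/

open scoped Manifold ContDiff Matrix

namespace Pool.Agent.Results.MP_4e0d62_gt.PositiveM9

section
variable {F : Type*} [NormedAddCommGroup F] [NormedSpace ℝ F]

/-- Christoffel symbols of the first kind:
`chr G z u v w = (D_u G(v,w) + D_v G(u,w) - D_w G(u,v)) / 2`. -/
noncomputable def chr (G : F → F →L[ℝ] F →L[ℝ] ℝ) (z u v : F) : F →L[ℝ] ℝ :=
  (1 / 2 : ℝ) • (fderiv ℝ (fun z' => G z' v) z u + fderiv ℝ (fun z' => G z' u) z v
    - fderiv ℝ (fun z' => G z' u v) z)

/-- The Levi-Civita connection form: the vector `Γ(u,v)` with `G(Γ(u,v),w) = chr G z u v w`. -/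
noncomputable def Gam (G : F → F →L[ℝ] F →L[ℝ] ℝ) (z u v : F) : F :=
  (G z).inverse (chr G z u v)

/-- The Riemann curvature tensor `R(u,v)w = ∇_u ∇_v w - ∇_v ∇_u w` for constant `u, v, w`. -/
noncomputable def Riem (G : F → F →L[ℝ] F →L[ℝ] ℝ) (z u v w : F) : F :=
  fderiv ℝ (fun z' => Gam G z' v w) z u - fderiv ℝ (fun z' => Gam G z' u w) z v
    + Gam G z u (Gam G z v w) - Gam G z v (Gam G z u w)

/-- The sectional curvature of the plane spanned by `u` and `v` at `z`. -/
noncomputable def secCurv (G : F → F →L[ℝ] F →L[ℝ] ℝ) (z u v : F) : ℝ :=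
  G z (Riem G z u v v) u / (G z u u * G z v v - G z u v ^ 2)

end

section
variable {E : Type*} [NormedAddCommGroup E] [NormedSpace ℝ E] {H : Type*} [TopologicalSpace H]
  {I : ModelWithCorners ℝ E H} {M : Type*} [TopologicalSpace M] [ChartedSpace H M]
  [IsManifold I ∞ M]

/-- The coordinate expression of the Riemannian metric `g` in the preferred chart at `p`. -/
noncomputable def coordMetric
    (g : Bundle.ContMDiffRiemannianMetric I ∞ E (fun x : M => TangentSpace I x)) (p : M) (y : E) :
    E →L[ℝ] E →L[ℝ] ℝ :=
  (ContinuousLinearMap.precomp ℝ (mfderiv 𝓘(ℝ, E) I (extChartAt I p).symm y)).comp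
    ((g.inner ((extChartAt I p).symm y)).comp (mfderiv 𝓘(ℝ, E) I (extChartAt I p).symm y))

/-- The sectional curvature of the Riemannian metric `g` for the plane spanned by `u`, `v` in the
tangent space at `p`. A check of this definition: for the metric induced on the unit sphere of a
Euclidean space it is `1` for every plane, see `Pool.Agent.Helper27.RS.sectionalCurvature_sphere`
in `Pool/Agent/Helper27/RS/Sphere.lean`. -/
noncomputable def sectionalCurvature
    (g : Bundle.ContMDiffRiemannianMetric I ∞ E (fun x : M => TangentSpace I x)) (p : M)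
    (u v : TangentSpace I p) : ℝ :=
  secCurv (coordMetric g p) (extChartAt I p p) u v

variable (I M) in
/-- The manifold `M` admits a smooth Riemannian metric of positive sectional curvature. -/
def AdmitsPositiveCurvature : Prop :=
  ∃ g : Bundle.ContMDiffRiemannianMetric I ∞ E (fun x : M => TangentSpace I x),
    ∀ (p : M) (u v : TangentSpace I p), LinearIndependent ℝ ![u, v] → 0 < sectionalCurvature g p u v

end

section
variable {E : Type*} [NormedAddCommGroup E] [NormedSpace ℝ E] {H : Type*} [TopologicalSpace H]
  (I : ModelWithCorners ℝ E H) {M : Type*} [TopologicalSpace M] [ChartedSpace H M]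
  {F : Type*} [NormedAddCommGroup F] [NormedSpace ℝ F]

/-- The map `f` from the manifold `M` to the normed space `F` is a smooth immersion: it is smooth,
and its differentials are injective. -/
def IsSmoothImmersion (f : M → F) : Prop :=
  ContMDiff I 𝓘(ℝ, F) ∞ f ∧ ∀ p : M, Function.Injective (mfderiv I 𝓘(ℝ, F) f p)

end

/-- The space `M` has a smooth structure, modelled on `I`, for which the map `f` from `M` to the normed
space `F` is a smooth immersion and `M` admits a smooth Riemannian metric of positive sectional
curvature. -/
def HasPositiveStructure {E : Type*} [NormedAddCommGroup E] [NormedSpace ℝ E] {H : Type*}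
    [TopologicalSpace H] (I : ModelWithCorners ℝ E H) {M : Type*} [TopologicalSpace M] {F : Type*}
    [NormedAddCommGroup F] [NormedSpace ℝ F] (f : M → F) : Prop :=
  ∃ (_ : ChartedSpace H M) (_ : IsManifold I ∞ M),
    IsSmoothImmersion I f ∧ AdmitsPositiveCurvature I M

/-- The complex `3 × 3` matrices `Q` with `Q Q* Q = Q` and `tr (Q* Q) = 1`. -/
def M9 : Set (Matrix (Fin 3) (Fin 3) ℂ) :=
  {Q | Q * Qᴴ * Q = Q ∧ (Qᴴ * Q).trace = 1}

/-- The inclusion of `M9` in the space of matrices. -/
def incl (Q : M9) : Fin 3 → Fin 3 → ℂ := fun i j => (Q : Matrix (Fin 3) (Fin 3) ℂ) i j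

/-- `M9` is compact and simply connected, it has a smooth structure of dimension nine for which
the inclusion in the space of matrices is a smooth immersion, and with this structure it admits a
smooth Riemannian metric with positive sectional curvature. -/
theorem result : IsCompact M9 ∧ SimplyConnectedSpace M9 ∧ HasPositiveStructure (𝓡 9) incl :=
  ⟨Helper46.M9.M9_isCompact, Helper46.M9.simplyConnectedSpace_M9, Helper81.M9.M9_final⟩

end Pool.Agent.Results.MP_4e0d62_gt.PositiveM9
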