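import Pool.Agent.Helper20.HPF.Pos

/-!
# `S² × S³` admits a Riemannian metric of positive sectional curvature
-/

open Metric
open scoped Manifold ContDiff

namespace Pool.Agent.Results.MP_4e0d62_gt.PositiveS2S3

section
variable {F : Type*} [NormedAddCommGroup F] [NormedSpace ℝ F]

/-- Christoffel symbols of the first kind:
`chr G z u v w = (D_u G(v,w) + D_v G(u,w) - D_w G(u,v)) / 2`. -/
noncomputable def chr (G : F → F →L[ℝ] F →L[ℝ] ℝ) (z u v : F) : F →L[ℝ] ℝ :=
  (1 / 2 : ℝ) • (fderiv ℝ (fun z' => G z' v) z u + fderiv ℝ (fun z' => G z' u) z v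
    - fderiv ℝ (fun z' => G z' u v) z)

/-- The Levi-Civita connection form: the vector `Γ(u,v)` with `G(Γ(u,v),w) = chr G z u v w`. -/
noncomputable def Gam (G : F → F →L[ℝ] F →L[ℝ] ℝ) (z u v : F) : F :=
  (G z).inverse (chr G z u v)

/-- The Riemann curvature tensor `R(u,v)w = ∇_u ∇_v w - ∇_v ∇_u w` for constant `u, v, w`. -/
noncomputable def Riem (G : F → F →L[ℝ] F →L[ℝ] ℝ) (z u v w : F) : F :=
  fderiv ℝ (fun z' => Gam G z' v w) z u - fderiv ℝ (fun z' => Gam G z' u w) z v
    + Gam G z u (Gam G z v w) - Gam G z v (Gam G z u w)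

/-- The sectional curvature of the plane spanned by `u` and `v` at `z`. -/
noncomputable def secCurv (G : F → F →L[ℝ] F →L[ℝ] ℝ) (z u v : F) : ℝ :=
  G z (Riem G z u v v) u / (G z u u * G z v v - G z u v ^ 2)

end

section
variable {E : Type*} [NormedAddCommGroup E] [NormedSpace ℝ E] {H : Type*} [TopologicalSpace H]
  {I : ModelWithCorners ℝ E H} {M : Type*} [TopologicalSpace M] [ChartedSpace H M]
  [IsManifold I ∞ M]

/-- The coordinate expression of the Riemannian metric `g` in the preferred chart at `p`. -/
noncomputable def coordMetric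
    (g : Bundle.ContMDiffRiemannianMetric I ∞ E (fun x : M => TangentSpace I x)) (p : M) (y : E) :
    E →L[ℝ] E →L[ℝ] ℝ :=
  (ContinuousLinearMap.precomp ℝ (mfderiv 𝓘(ℝ, E) I (extChartAt I p).symm y)).comp
    ((g.inner ((extChartAt I p).symm y)).comp (mfderiv 𝓘(ℝ, E) I (extChartAt I p).symm y))

/-- The sectional curvature of the Riemannian metric `g` for the plane spanned by `u`, `v` in the
tangent space at `p`. A check of this definition, made for its copy
`Pool.Agent.Helper20.HP.sectionalCurvature`: for the metric induced on the unit sphere of a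
Euclidean space it is `1` for every plane, see `Pool.Agent.Helper27.RS.sectionalCurvature_sphere`
in `Pool/Agent/Helper27/RS/Sphere.lean`. -/
noncomputable def sectionalCurvature
    (g : Bundle.ContMDiffRiemannianMetric I ∞ E (fun x : M => TangentSpace I x)) (p : M)
    (u v : TangentSpace I p) : ℝ :=
  secCurv (coordMetric g p) (extChartAt I p p) u v

variable (I M) in
/-- The manifold `M` admits a smooth Riemannian metric of positive sectional curvature. -/
def AdmitsPositiveCurvature : Prop :=
  ∃ g : Bundle.ContMDiffRiemannianMetric I ∞ E (fun x : M => TangentSpace I x),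
    ∀ (p : M) (u v : TangentSpace I p), LinearIndependent ℝ ![u, v] → 0 < sectionalCurvature g p u v

end

section
variable {E : Type*} [NormedAddCommGroup E] [NormedSpace ℝ E] {H : Type*} [TopologicalSpace H]
  {E' : Type*} [NormedAddCommGroup E'] [NormedSpace ℝ E'] {H' : Type*} [TopologicalSpace H']

/-- The product `M × M'` of two manifolds admits a smooth Riemannian metric of positive sectional
curvature. -/
def ProductAdmitsPositiveCurvature (I : ModelWithCorners ℝ E H) (M : Type*) [TopologicalSpace M]
    [ChartedSpace H M] [IsManifold I ∞ M] (I' : ModelWithCorners ℝ E' H') (M' : Type*)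
    [TopologicalSpace M'] [ChartedSpace H' M'] [IsManifold I' ∞ M'] : Prop :=
  AdmitsPositiveCurvature (I.prod I') (M × M')

end

/-- The manifold `S² × S³` admits a smooth Riemannian metric with positive sectional curvature. -/
theorem result : ProductAdmitsPositiveCurvature (𝓡 2) (sphere (0 : EuclideanSpace ℝ (Fin 3)) 1)
    (𝓡 3) (sphere (0 : EuclideanSpace ℝ (Fin 4)) 1) :=
  Pool.Agent.Helper20.HP.positive_S2S3

end Pool.Agent.Results.MP_4e0d62_gt.PositiveS2S3
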